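import Pool.Agent.SZT.StmtsC

/-!
# Squad SZT, row DSR: the discriminant of a product of linear factors
-/

set_option autoImplicit false

namespace Pool.Agent.SZT.H38

open Polynomial

/-- the derivative of the product at a root -/
theorem dsr_eval {L : Type} [Field L] (θ : Fin 5 → L) (i : Fin 5) :
    (derivative (∏ j, (X - C (θ j)) : L[X])).eval (θ i) =
      ∏ j ∈ Finset.univ.erase i, (θ i - θ j) := by
  rw [derivative_prod_finset, eval_finsetSum, Finset.sum_eq_single i]
  · simp [eval_prod]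
  · intro k _ hk
    rw [eval_mul, eval_prod, Finset.prod_eq_zero (i := i)
      (Finset.mem_erase.2 ⟨hk.symm, Finset.mem_univ _⟩), zero_mul]
    simp
  · simp

theorem dsr_res {L : Type} [Field L] (θ : Fin 5 → L) :
    discr (∏ i, (X - C (θ i)) : L[X]) = ∏ i, ∏ j ∈ Finset.univ.erase i, (θ i - θ j) := by
  have hm : (∏ i, (X - C (θ i)) : L[X]).Monic :=
    monic_prod_of_monic _ _ fun i _ => monic_X_sub_C _
  have hn : (∏ i, (X - C (θ i)) : L[X]).natDegree = 5 := by
    rw [natDegree_prod_of_monic _ _ fun i _ => monic_X_sub_C _]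
    simp
  have hd : (derivative (∏ i, (X - C (θ i)) : L[X])).natDegree ≤ 4 := by
    refine (natDegree_derivative_le _).trans ?_
    rw [hn]
  have h1 := resultant_deriv (f := (∏ i, (X - C (θ i)) : L[X]))
    (natDegree_pos_iff_degree_pos.1 (by rw [hn]; norm_num))
  have h2 := resultant_prod_left (Finset.univ) (fun i => (X - C (θ i) : L[X]))
    (derivative (∏ i, (X - C (θ i)) : L[X])) 4
    (by simp) hd
  have h3 : ∀ i, (X - C (θ i) : L[X]).resultant (derivative (∏ i, (X - C (θ i)) : L[X]))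
      (X - C (θ i) : L[X]).natDegree 4 = ∏ j ∈ Finset.univ.erase i, (θ i - θ j) := fun i => by
    rw [natDegree_X_sub_C, resultant_X_sub_C_left _ _ _ hd, dsr_eval]
  rw [Finset.prod_congr rfl fun i _ => h3 i] at h2
  rw [← h2, hn]
  rw [hn, hm.leadingCoeff] at h1
  have h4 : (-1 : L) ^ (5 * (5 - 1) / 2) = 1 := by norm_num
  rw [h4, mul_one, one_mul] at h1
  exact h1.symm

theorem dsr : DsrStatement := by
  intro L _ θ
  left
  rw [dsr_res]
  have e0 : (Finset.univ.erase (0 : Fin 5)) = {1, 2, 3, 4} := by decide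
  have e1 : (Finset.univ.erase (1 : Fin 5)) = {0, 2, 3, 4} := by decide
  have e2 : (Finset.univ.erase (2 : Fin 5)) = {0, 1, 3, 4} := by decide
  have e3 : (Finset.univ.erase (3 : Fin 5)) = {0, 1, 2, 4} := by decide
  have e4 : (Finset.univ.erase (4 : Fin 5)) = {0, 1, 2, 3} := by decide
  have f0 : (Finset.univ.filter (fun j : Fin 5 => (0 : Fin 5) < j)) = {1, 2, 3, 4} := by decide
  have f1 : (Finset.univ.filter (fun j : Fin 5 => (1 : Fin 5) < j)) = {2, 3, 4} := by decide
  have f2 : (Finset.univ.filter (fun j : Fin 5 => (2 : Fin 5) < j)) = {3, 4} := by decide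
  have f3 : (Finset.univ.filter (fun j : Fin 5 => (3 : Fin 5) < j)) = {4} := by decide
  have f4 : (Finset.univ.filter (fun j : Fin 5 => (4 : Fin 5) < j)) = ∅ := by decide
  unfold dsc
  rw [Fin.prod_univ_five, Fin.prod_univ_five, e0, e1, e2, e3, e4, f0, f1, f2, f3, f4]
  simp only [Finset.prod_insert, Finset.mem_insert, Finset.mem_singleton, Finset.prod_singleton,
    Finset.prod_empty, Fin.reduceEq, or_self, not_false_eq_true]
  have a10 : θ 1 - θ 0 = -(θ 0 - θ 1) := by ring
  have a20 : θ 2 - θ 0 = -(θ 0 - θ 2) := by ring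
  have a30 : θ 3 - θ 0 = -(θ 0 - θ 3) := by ring
  have a40 : θ 4 - θ 0 = -(θ 0 - θ 4) := by ring
  have a21 : θ 2 - θ 1 = -(θ 1 - θ 2) := by ring
  have a31 : θ 3 - θ 1 = -(θ 1 - θ 3) := by ring
  have a41 : θ 4 - θ 1 = -(θ 1 - θ 4) := by ring
  have a32 : θ 3 - θ 2 = -(θ 2 - θ 3) := by ring
  have a42 : θ 4 - θ 2 = -(θ 2 - θ 4) := by ring
  have a43 : θ 4 - θ 3 = -(θ 3 - θ 4) := by ring
  rw [a10, a20, a30, a40, a21, a31, a41, a32, a42, a43]
  generalize θ 0 - θ 1 = b01
  generalize θ 0 - θ 2 = b02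
  generalize θ 0 - θ 3 = b03
  generalize θ 0 - θ 4 = b04
  generalize θ 1 - θ 2 = b12
  generalize θ 1 - θ 3 = b13
  generalize θ 1 - θ 4 = b14
  generalize θ 2 - θ 3 = b23
  generalize θ 2 - θ 4 = b24
  generalize θ 3 - θ 4 = b34
  ring

end Pool.Agent.SZT.H38
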