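import Pool.Agent.SZT.StmtsB

/-!
# Squad SZT, block B, row ROO: from the condition modulo `v` to the roots
-/

set_option autoImplicit false

noncomputable section

open Polynomial

namespace Pool.Agent.SZT.H38

open Pool.Agent.SZT.B

/-! ### algebra -/

/-- enumeration of the roots -/
theorem roo_enum {M : Type} [Field M] [IsAlgClosed M] (P : M[X]) (hP : P.Monic) (n : ℕ)
    (hn : P.natDegree = n) : ∃ r : Fin n → M, P = ∏ l, (X - C (r l)) := by
  have hs : P.Splits := IsAlgClosed.splits P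
  have h1 : P = (P.roots.map fun a => X - C a).prod := hs.eq_prod_roots_of_monic hP
  have h2 : P.roots.toList.length = n := by
    rw [Multiset.length_toList, ← hn]
    exact hs.natDegree_eq_card_roots.symm
  subst h2
  refine ⟨fun k => P.roots.toList[k.1], ?_⟩
  rw [Fin.prod_univ_fun_getElem P.roots.toList (fun a => (X - C a : M[X]))]
  rw [← Multiset.prod_coe, ← Multiset.map_coe, Multiset.coe_toList]
  exact h1

/-- the derivative of a product of linear factors -/
theorem roo_der {M : Type} [Field M] {n : ℕ} (θ : Fin n → M) (x : M) :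
    (derivative (∏ j, (X - C (θ j)) : M[X])).eval x =
      ∑ i, ∏ j ∈ Finset.univ.erase i, (x - θ j) := by
  rw [derivative_prod_finset, eval_finsetSum]
  refine Finset.sum_congr rfl fun i _ => ?_
  simp [eval_prod]

/-- the derivative of a product of linear factors at a root -/
theorem roo_der' {M : Type} [Field M] {n : ℕ} (θ : Fin n → M) (i : Fin n) :
    (derivative (∏ j, (X - C (θ j)) : M[X])).eval (θ i) =
      ∏ j ∈ Finset.univ.erase i, (θ i - θ j) := by
  rw [roo_der, Finset.sum_eq_single i]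
  · intro k _ hk
    exact Finset.prod_eq_zero (Finset.mem_erase.2 ⟨hk.symm, Finset.mem_univ _⟩) (sub_self _)
  · simp

theorem roo_monic {M : Type} [Field M] {n : ℕ} (θ : Fin n → M) :
    (∏ i, (X - C (θ i)) : M[X]).Monic ∧ (∏ i, (X - C (θ i)) : M[X]).natDegree = n := by
  refine ⟨monic_prod_of_monic _ _ fun i _ => monic_X_sub_C _, ?_⟩
  rw [natDegree_prod_of_monic _ _ fun i _ => monic_X_sub_C _]
  simp

/-- the resultant of a product of linear factors and its derivative -/
theorem roo_res {M : Type} [Field M] {n : ℕ} (θ : Fin n → M) :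
    resultant (∏ i, (X - C (θ i)) : M[X]) (derivative (∏ i, (X - C (θ i)) : M[X])) n (n - 1) =
      ∏ i, ∏ j ∈ Finset.univ.erase i, (θ i - θ j) := by
  have hn := (roo_monic θ).2
  have hd : (derivative (∏ i, (X - C (θ i)) : M[X])).natDegree ≤ n - 1 := by
    refine (natDegree_derivative_le _).trans ?_
    rw [hn]
  have h2 := resultant_prod_left (Finset.univ) (fun i => (X - C (θ i) : M[X]))
    (derivative (∏ i, (X - C (θ i)) : M[X])) (n - 1) (by simp) hd
  have h3 : ∀ i, (X - C (θ i) : M[X]).resultant (derivative (∏ i, (X - C (θ i)) : M[X]))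
      (X - C (θ i) : M[X]).natDegree (n - 1) = ∏ j ∈ Finset.univ.erase i, (θ i - θ j) := fun i => by
    rw [natDegree_X_sub_C, resultant_X_sub_C_left _ _ _ hd, roo_der']
  rw [Finset.prod_congr rfl fun i _ => h3 i, hn] at h2
  exact h2

/-! ### ultrametric estimates -/

section ultra

variable {L : Type} [NormedField L] [IsUltrametricDist L]

theorem u_sum {ι : Type} (s : Finset ι) (f : ι → L) (h : ∀ i ∈ s, ‖f i‖ < 1) :
    ‖∑ i ∈ s, f i‖ < 1 := by
  rcases s.eq_empty_or_nonempty with h0 | h0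
  · rw [h0, Finset.sum_empty, norm_zero]; exact one_pos
  · obtain ⟨i, hi, hle⟩ := IsUltrametricDist.exists_norm_finsetSum_le_of_nonempty h0 f
    exact hle.trans_lt (h i hi)

theorem u_add {x y : L} (hx : ‖x‖ < 1) (hy : ‖y‖ < 1) : ‖x + y‖ < 1 :=
  (IsUltrametricDist.norm_add_le_max x y).trans_lt (max_lt hx hy)

theorem u_sub {x y : L} (hx : ‖x‖ < 1) (hy : ‖y‖ < 1) : ‖x - y‖ < 1 := by
  rw [sub_eq_add_neg]; exact u_add hx (by rwa [norm_neg])

theorem u_sub_le {x y : L} (hx : ‖x‖ ≤ 1) (hy : ‖y‖ ≤ 1) : ‖x - y‖ ≤ 1 := by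
  rw [sub_eq_add_neg]
  exact (IsUltrametricDist.norm_add_le_max x (-y)).trans (max_le hx (by rwa [norm_neg]))

/-- a small change of an element of norm one -/
theorem u_one {x y : L} (hx : ‖x‖ = 1) (hy : ‖x - y‖ < 1) : ‖y‖ = 1 := by
  have h1 : ‖y‖ ≤ 1 := by
    have h2 : y = x - (x - y) := by ring
    rw [h2]; exact u_sub_le hx.le hy.le
  refine le_antisymm h1 (not_lt.1 fun h => ?_)
  have h2 : x = (x - y) + y := by ring
  have h3 := u_add hy h
  rw [← h2, hx] at h3
  exact lt_irrefl _ h3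

theorem u_eval {p : L[X]} (hp : ∀ n, ‖p.coeff n‖ < 1) {x : L} (hx : ‖x‖ ≤ 1) :
    ‖p.eval x‖ < 1 := by
  rw [eval_eq_sum_range]
  refine u_sum _ _ fun i _ => ?_
  rw [norm_mul, norm_pow]
  calc ‖p.coeff i‖ * ‖x‖ ^ i ≤ ‖p.coeff i‖ * 1 :=
        mul_le_mul_of_nonneg_left (pow_le_one₀ (norm_nonneg _) hx) (norm_nonneg _)
    _ < 1 := by rw [mul_one]; exact hp i

/-- roots of integral monic polynomials are integral -/
theorem u_int {P : L[X]} (hP : P.Monic) (hc : ∀ n, ‖P.coeff n‖ ≤ 1) {x : L}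
    (hx : P.eval x = 0) : ‖x‖ ≤ 1 := by
  by_contra h
  have h1 : 1 < ‖x‖ := not_le.1 h
  rw [eval_eq_sum_range, Finset.sum_range_succ, hP.coeff_natDegree, one_mul] at hx
  have h2 : x ^ P.natDegree = -∑ i ∈ Finset.range P.natDegree, P.coeff i * x ^ i :=
    eq_neg_of_add_eq_zero_right hx
  rcases (Finset.range P.natDegree).eq_empty_or_nonempty with h0 | h0
  · rw [h0, Finset.sum_empty, neg_zero] at h2
    have h3 : x ≠ 0 := fun h4 => by rw [h4, norm_zero] at h1; linarith
    exact pow_ne_zero _ h3 h2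
  · obtain ⟨i, hi, hle⟩ := IsUltrametricDist.exists_norm_finsetSum_le_of_nonempty h0
      (fun i => P.coeff i * x ^ i)
    have hi' := Finset.mem_range.1 hi
    have h3 : ‖x‖ ^ P.natDegree ≤ ‖x‖ ^ i := by
      rw [← norm_pow, h2, norm_neg]
      refine hle.trans ?_
      rw [norm_mul, norm_pow]
      exact mul_le_of_le_one_left (pow_nonneg (norm_nonneg _) _) (hc i)
    exact absurd (pow_lt_pow_right₀ h1 hi') (not_lt.2 h3)

omit [IsUltrametricDist L] in
theorem u_prod_one {ι : Type} (s : Finset ι) (f : ι → L) (h : ∀ i ∈ s, ‖f i‖ ≤ 1)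
    (h1 : ‖∏ i ∈ s, f i‖ = 1) : ∀ i ∈ s, ‖f i‖ = 1 := by
  classical
  intro i hi
  refine le_antisymm (h i hi) ?_
  rw [norm_prod, ← Finset.mul_prod_erase s _ hi] at h1
  have h2 : ∏ k ∈ s.erase i, ‖f k‖ ≤ 1 :=
    Finset.prod_le_one (fun _ _ => norm_nonneg _) fun k hk => h k (Finset.mem_of_mem_erase hk)
  calc 1 = ‖f i‖ * ∏ k ∈ s.erase i, ‖f k‖ := h1.symm
    _ ≤ ‖f i‖ * 1 := mul_le_mul_of_nonneg_left h2 (norm_nonneg _)
    _ = ‖f i‖ := mul_one _

omit [IsUltrametricDist L] in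
theorem u_prod_lt {ι : Type} (s : Finset ι) (f : ι → L) (h1 : ‖∏ i ∈ s, f i‖ < 1) :
    ∃ i ∈ s, ‖f i‖ < 1 := by
  by_contra h
  push Not at h
  rw [norm_prod] at h1
  have h2 : 1 ≤ ∏ i ∈ s, ‖f i‖ := by
    calc (1 : ℝ) = ∏ _i ∈ s, (1 : ℝ) := by simp
      _ ≤ ∏ i ∈ s, ‖f i‖ := Finset.prod_le_prod (fun _ _ => zero_le_one) h
  linarith

/-- the roots of `f ≡ (x - ε)² h` -/
theorem roo_main (y : Fin 5 → L) (b : Fin 3 → L) (ε : L) (hε : ‖ε‖ ≤ 1)
    (hF : ∀ n, ‖(∏ l, (X - C (y l)) : L[X]).coeff n‖ ≤ 1)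
    (hH : ∀ n, ‖(∏ l, (X - C (b l)) : L[X]).coeff n‖ ≤ 1)
    (hD : ∀ n, ‖((∏ l, (X - C (y l)) : L[X]) - (X - C ε) ^ 2 * ∏ l, (X - C (b l))).coeff n‖ < 1)
    (hHε : ‖(∏ l, (X - C (b l)) : L[X]).eval ε‖ = 1)
    (hR : ‖∏ i, ∏ j ∈ Finset.univ.erase i, (b i - b j)‖ = 1) :
    ∃ σ : Fin 5 ≃ Fin 5, (∀ l, ‖y l‖ ≤ 1) ∧ ‖ε - y (σ 0)‖ < 1 ∧ ‖ε - y (σ 1)‖ < 1 ∧
      ‖b 0 - y (σ 2)‖ < 1 ∧ ‖b 1 - y (σ 3)‖ < 1 ∧ ‖b 2 - y (σ 4)‖ < 1 ∧
      (∀ k, ‖ε - b k‖ = 1) ∧ ∀ k l, k ≠ l → ‖b k - b l‖ = 1 := by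
  have hF1 := (roo_monic y).1
  have hH1 := (roo_monic b).1
  have hyr : ∀ l, (∏ l, (X - C (y l)) : L[X]).eval (y l) = 0 := fun l => by
    rw [eval_prod]
    exact Finset.prod_eq_zero (Finset.mem_univ l) (by simp)
  have hbr : ∀ l, (∏ l, (X - C (b l)) : L[X]).eval (b l) = 0 := fun l => by
    rw [eval_prod]
    exact Finset.prod_eq_zero (Finset.mem_univ l) (by simp)
  have hy1 : ∀ l, ‖y l‖ ≤ 1 := fun l => u_int hF1 hF (hyr l)
  have hb1 : ∀ l, ‖b l‖ ≤ 1 := fun l => u_int hH1 hH (hbr l)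
  have hεb : ∀ k, ‖ε - b k‖ = 1 := by
    intro k
    have h1 : ‖∏ l, (ε - b l)‖ = 1 := by
      rw [eval_prod] at hHε
      simpa using hHε
    exact u_prod_one _ _ (fun l _ => u_sub_le hε (hb1 l)) h1 k (Finset.mem_univ k)
  have hbb : ∀ k l, k ≠ l → ‖b k - b l‖ = 1 := by
    intro k l hkl
    have h1 := u_prod_one _ _ (fun i _ => by
      rw [norm_prod]
      exact Finset.prod_le_one (fun _ _ => norm_nonneg _) fun j _ => u_sub_le (hb1 i) (hb1 j))
      hR k (Finset.mem_univ k)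
    exact u_prod_one _ _ (fun j _ => u_sub_le (hb1 k) (hb1 j)) h1 l
      (Finset.mem_erase.2 ⟨hkl.symm, Finset.mem_univ _⟩)
  set D : L[X] := (∏ l, (X - C (y l)) : L[X]) - (X - C ε) ^ 2 * ∏ l, (X - C (b l)) with hDdef
  have hFD : (∏ l, (X - C (y l)) : L[X]) = D + (X - C ε) ^ 2 * ∏ l, (X - C (b l)) := by
    rw [hDdef]; ring
  -- one root in every class of a root of `h`
  have hk : ∀ k, ∃ l, ‖b k - y l‖ < 1 := by
    intro k
    have h1 : ‖∏ l, (b k - y l)‖ < 1 := by
      have h2 : (∏ l, (X - C (y l)) : L[X]).eval (b k) = D.eval (b k) := by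
        rw [hFD, eval_add, eval_mul, hbr k, mul_zero, add_zero]
      rw [eval_prod] at h2
      simp only [eval_sub, eval_X, eval_C] at h2
      rw [h2]
      exact u_eval hD (hb1 k)
    obtain ⟨l, _, hl⟩ := u_prod_lt _ _ h1
    exact ⟨l, hl⟩
  -- two roots in the class of `ε`
  obtain ⟨a, ha⟩ : ∃ l, ‖ε - y l‖ < 1 := by
    have h1 : ‖∏ l, (ε - y l)‖ < 1 := by
      have h2 : (∏ l, (X - C (y l)) : L[X]).eval ε = D.eval ε := by
        have h5 : (X - C ε : L[X]).eval ε = 0 := by simp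
        rw [hFD, eval_add, eval_mul, eval_pow, h5]
        ring
      rw [eval_prod] at h2
      simp only [eval_sub, eval_X, eval_C] at h2
      rw [h2]
      exact u_eval hD hε
    obtain ⟨l, _, hl⟩ := u_prod_lt _ _ h1
    exact ⟨l, hl⟩
  obtain ⟨a', haa, ha'⟩ : ∃ l, l ≠ a ∧ ‖ε - y l‖ < 1 := by
    by_contra hno
    push Not at hno
    have hone : ∀ l, l ≠ a → ‖ε - y l‖ = 1 := fun l hl =>
      le_antisymm (u_sub_le hε (hy1 l)) (hno l hl)
    have h1 : ‖(derivative (∏ l, (X - C (y l)) : L[X])).eval ε‖ < 1 := by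
      have h2 : (derivative (∏ l, (X - C (y l)) : L[X])).eval ε = (derivative D).eval ε := by
        rw [hFD, derivative_add, derivative_mul, eval_add, eval_add, eval_mul, eval_mul,
          derivative_pow]
        simp
      rw [h2]
      refine u_eval (fun n => ?_) hε
      rw [coeff_derivative, norm_mul]
      have h3 : ‖(n : L) + 1‖ ≤ 1 := by
        have := IsUltrametricDist.norm_natCast_le_one L (n + 1)
        simpa using this
      calc ‖D.coeff (n + 1)‖ * ‖(n : L) + 1‖ ≤ ‖D.coeff (n + 1)‖ * 1 :=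
            mul_le_mul_of_nonneg_left h3 (norm_nonneg _)
        _ < 1 := by rw [mul_one]; exact hD _
    rw [roo_der, ← Finset.add_sum_erase Finset.univ _ (Finset.mem_univ a)] at h1
    have h2 : ‖∑ i ∈ Finset.univ.erase a, ∏ j ∈ Finset.univ.erase i, (ε - y j)‖ < 1 := by
      refine u_sum _ _ fun i hi => ?_
      have hia : i ≠ a := (Finset.mem_erase.1 hi).1
      rw [norm_prod, ← Finset.mul_prod_erase (Finset.univ.erase i) _
        (Finset.mem_erase.2 ⟨hia.symm, Finset.mem_univ a⟩)]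
      have h3 : ∏ k ∈ (Finset.univ.erase i).erase a, ‖ε - y k‖ ≤ 1 :=
        Finset.prod_le_one (fun _ _ => norm_nonneg _) fun k _ => u_sub_le hε (hy1 k)
      calc ‖ε - y a‖ * ∏ k ∈ (Finset.univ.erase i).erase a, ‖ε - y k‖ ≤ ‖ε - y a‖ * 1 :=
            mul_le_mul_of_nonneg_left h3 (norm_nonneg _)
        _ < 1 := by rw [mul_one]; exact ha
    have h3 : ‖∏ j ∈ Finset.univ.erase a, (ε - y j)‖ = 1 := by
      rw [norm_prod]
      exact Finset.prod_eq_one fun j hj => hone j (Finset.mem_erase.1 hj).1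
    have h4 := u_sub h1 h2
    rw [add_sub_cancel_right, h3] at h4
    exact lt_irrefl _ h4
  obtain ⟨l0, h0⟩ := hk 0
  obtain ⟨l1, h1⟩ := hk 1
  obtain ⟨l2, h2⟩ := hk 2
  have nb : ∀ k l (u v : Fin 5), k ≠ l → ‖b k - y u‖ < 1 → ‖b l - y v‖ < 1 → u ≠ v := by
    intro k l u v hkl hu hv huv
    subst huv
    have h3 := u_sub hu hv
    have h4 : b k - y u - (b l - y u) = b k - b l := by ring
    rw [h4, hbb k l hkl] at h3
    exact lt_irrefl _ h3
  have ne' : ∀ k (u v : Fin 5), ‖ε - y u‖ < 1 → ‖b k - y v‖ < 1 → u ≠ v := by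
    intro k u v hu hv huv
    subst huv
    have h3 := u_sub hu hv
    have h4 : ε - y u - (b k - y u) = ε - b k := by ring
    rw [h4, hεb k] at h3
    exact lt_irrefl _ h3
  have hinj : Function.Injective (![a, a', l0, l1, l2] : Fin 5 → Fin 5) := by
    have e1 := ne' 0 a l0 ha h0
    have e2 := ne' 1 a l1 ha h1
    have e3 := ne' 2 a l2 ha h2
    have e4 := ne' 0 a' l0 ha' h0
    have e5 := ne' 1 a' l1 ha' h1
    have e6 := ne' 2 a' l2 ha' h2
    have e7 := nb 0 1 l0 l1 (by decide) h0 h1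
    have e8 := nb 0 2 l0 l2 (by decide) h0 h2
    have e9 := nb 1 2 l1 l2 (by decide) h1 h2
    intro s t hst
    fin_cases s <;> fin_cases t <;> simp at hst ⊢ <;> first
      | exact absurd hst haa | exact absurd hst haa.symm
      | exact absurd hst e1 | exact absurd hst e1.symm
      | exact absurd hst e2 | exact absurd hst e2.symm
      | exact absurd hst e3 | exact absurd hst e3.symm
      | exact absurd hst e4 | exact absurd hst e4.symm
      | exact absurd hst e5 | exact absurd hst e5.symm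
      | exact absurd hst e6 | exact absurd hst e6.symm
      | exact absurd hst e7 | exact absurd hst e7.symm
      | exact absurd hst e8 | exact absurd hst e8.symm
      | exact absurd hst e9 | exact absurd hst e9.symm
  refine ⟨Equiv.ofBijective _ (Finite.injective_iff_bijective.1 hinj), hy1, ?_, ?_, ?_, ?_, ?_,
    hεb, hbb⟩
  · exact ha
  · exact ha'
  · exact h0
  · exact h1
  · exact h2

end ultra

theorem roo : B.RooStmt := by
  intro K Ω L _ _ _ _ _ i j v f hv hfm hfn hdisc hns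
  obtain ⟨hv2, hfc, e, h, he, hhc, hhm, hhn, hD, hhe, hdh⟩ := hns
  set φ : K →+* L := j.comp i with hφdef
  have hφ : ∀ x, ‖φ x‖ = v x := hv
  obtain ⟨r, hr⟩ := roo_enum (f.map i) (hfm.map i) 5 (by rw [hfm.natDegree_map, hfn])
  obtain ⟨β, hβ⟩ := roo_enum (h.map i) (hhm.map i) 3 (by rw [hhm.natDegree_map, hhn])
  have hy : f.map φ = ∏ l, (X - C (j (r l))) := by
    rw [hφdef, ← Polynomial.map_map, hr, Polynomial.map_prod]
    simp
  have hb : h.map φ = ∏ l, (X - C (j (β l))) := by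
    rw [hφdef, ← Polynomial.map_map, hβ, Polynomial.map_prod]
    simp
  have hR3 : ∏ s, ∏ t ∈ Finset.univ.erase s, (j (β s) - j (β t)) =
      φ (resultant h (derivative h) 3 2) := by
    rw [← resultant_map_map, ← derivative_map, hb]
    exact (roo_res (fun l => j (β l))).symm
  have hR5 : ∏ s, ∏ t ∈ Finset.univ.erase s, (j (r s) - j (r t)) =
      φ (resultant f (derivative f) 5 4) := by
    rw [← resultant_map_map, ← derivative_map, hy]
    exact (roo_res (fun l => j (r l))).symm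
  have hd3 : resultant h (derivative h) 3 2 = -discr h := by
    have h1 := resultant_deriv (f := h) (natDegree_pos_iff_degree_pos.1 (by rw [hhn]; norm_num))
    rw [hhn, hhm.leadingCoeff] at h1
    rw [h1]
    norm_num
  have hd5 : resultant f (derivative f) 5 4 = discr f := by
    have h1 := resultant_deriv (f := f) (natDegree_pos_iff_degree_pos.1 (by rw [hfn]; norm_num))
    rw [hfn, hfm.leadingCoeff] at h1
    rw [h1]
    norm_num
  obtain ⟨σ, hint, c0, c1, c2, c3, c4, hεb, hbb⟩ := roo_main (fun l => j (r l))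
    (fun l => j (β l)) (φ e) (by rw [hφ]; exact he)
    (fun n => by rw [← hy, coeff_map, hφ]; exact hfc n)
    (fun n => by rw [← hb, coeff_map, hφ]; exact hhc n)
    (fun n => by
      have h1 : (f.map φ - (X - C (φ e)) ^ 2 * h.map φ) = (f - (X - C e) ^ 2 * h).map φ := by
        simp
      rw [← hy, ← hb, h1, coeff_map, hφ]
      exact hD n)
    (by rw [← hb, eval_map, eval₂_at_apply, hφ]; exact hhe)
    (by rw [hR3, hd3, hφ, v.map_neg]; exact hdh)
  have hne : ∀ s t, s ≠ t → j (r s) ≠ j (r t) := by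
    intro s t hst h1
    have h2 : ∏ s, ∏ t ∈ Finset.univ.erase s, (j (r s) - j (r t)) = 0 := by
      refine Finset.prod_eq_zero (Finset.mem_univ s) ?_
      refine Finset.prod_eq_zero (Finset.mem_erase.2 ⟨hst.symm, Finset.mem_univ t⟩) ?_
      rw [h1, sub_self]
    rw [hR5, hd5] at h2
    exact hdisc ((map_eq_zero φ).1 h2)
  have htwo : ‖(2 : L)‖ = 1 := by
    have h1 := hφ 2
    rw [map_ofNat, hv2] at h1
    exact h1
  refine ⟨fun k => r (σ k), e, ?_, ?_⟩
  · refine ⟨htwo, ?_, fun k => hint (σ k), ?_, ?_, ?_⟩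
    · rw [hy]
      exact (Equiv.prod_comp σ (fun l => (X - C (j (r l)) : L[X]))).symm
    · exact hne _ _ fun h1 => by
        have := σ.injective h1
        exact absurd this (by decide)
    · have h1 : j (r (σ 0)) - j (r (σ 1)) = (φ e - j (r (σ 1))) - (φ e - j (r (σ 0))) := by ring
      rw [h1]
      exact u_sub c1 c0
    · have hcen : ∀ s : Fin 5,
          ‖(![φ e, φ e, j (β 0), j (β 1), j (β 2)] : Fin 5 → L) s - j (r (σ s))‖ < 1 := by
        intro s
        fin_cases s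
        · exact c0
        · exact c1
        · exact c2
        · exact c3
        · exact c4
      have hεb' : ∀ k, ‖j (β k) - φ e‖ = 1 := fun k => by rw [norm_sub_rev]; exact hεb k
      have hd : ∀ s t : Fin 5, s ≠ t → ¬ (s = 0 ∧ t = 1) → ¬ (s = 1 ∧ t = 0) →
          ‖(![φ e, φ e, j (β 0), j (β 1), j (β 2)] : Fin 5 → L) s -
            (![φ e, φ e, j (β 0), j (β 1), j (β 2)] : Fin 5 → L) t‖ = 1 := by
        intro s t h1 h2 h3
        fin_cases s <;> fin_cases t <;> first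
          | exact absurd rfl h1
          | exact absurd ⟨rfl, rfl⟩ h2
          | exact absurd ⟨rfl, rfl⟩ h3
          | exact hεb _
          | exact hεb' _
          | exact hbb _ _ (by decide)
      intro s t h1 h2 h3
      refine u_one (hd s t h1 h2 h3) ?_
      have h4 := u_sub (hcen s) (hcen t)
      have h5 : (![φ e, φ e, j (β 0), j (β 1), j (β 2)] : Fin 5 → L) s - j (r (σ s)) -
          ((![φ e, φ e, j (β 0), j (β 1), j (β 2)] : Fin 5 → L) t - j (r (σ t))) =
          (![φ e, φ e, j (β 0), j (β 1), j (β 2)] : Fin 5 → L) s -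
          (![φ e, φ e, j (β 0), j (β 1), j (β 2)] : Fin 5 → L) t -
          (j (r (σ s)) - j (r (σ t))) := by ring
      rw [h5] at h4
      exact h4
  · have h20 : (2 : L) ≠ 0 := fun h0 => by rw [h0, norm_zero] at htwo; exact zero_ne_one htwo
    have h1 : φ e - ctr (fun k => j (r (σ k))) =
        ((φ e - j (r (σ 0))) + (φ e - j (r (σ 1)))) / 2 := by
      unfold ctr
      field_simp
      ring
    have h2 : ‖φ e - ctr (fun k => j (r (σ k)))‖ < 1 := by
      rw [h1, norm_div, htwo, div_one]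
      exact u_add c0 c1
    exact h2

end Pool.Agent.SZT.H38
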